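import Pool.Agent.W619.X.Pair

/-!
# Abundance for pairs on quotients of products of curves

Let `C i` (`i < n`) be curves with function fields `F i`, let `Z` be their product, with function
field `L`, and let `G` be a finite group of automorphisms of `Z` which acts on each of the curves. Let
`X` be a projective manifold birational to `Z / G` and `Δ` an effective `ℚ`-divisor on `X`, given by
its multiplicities `δ v`. On the quotient curve `C i / G`, with function field `F i ⊓ fixedField G`,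
let `η i` be an orbifold divisor. The curves are of two kinds: those in `P` are not rational and
either `K + η i` is positive on `C i / G`, or `Δ` contains a multiple of a fibre of `X ⇢ C i / G` and
`K + η i` is not negative; those which are not in `P` are rational, or elliptic with `K + η i` not
negative. The divisor `Δ` is at most a pull-back from the product of the curves in `P`, and the
fixed points of `G` satisfy the condition `RTCond` of Reid-Tai type with weights `η`.
-/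

set_option autoImplicit false
set_option linter.overlappingInstances false

universe u

open FF IntermediateField Pool.Agent.W619.PQ Pool.Agent.W619.PL Pool.Agent.W619.TW
  Pool.Agent.W619.X

namespace Pool.Agent.Results.MP_9a2ae6_ag.CurveProductPairs

/-- **Abundance.** `K_X + Δ` is pseudo-effective if and only if none of the curves is rational, and
then `κ (K_X + Δ) = ν (K_X + Δ) = |P|`. -/
theorem result {L : Type u} [Field L] [Algebra ℂ L] (n : ℕ) (hn : Algebra.trdeg ℂ L = n)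
    (F : Fin n → IntermediateField ℂ L) (hF : ∀ i, IsFF ℂ (F i)) (hsup : ⨆ i, F i = ⊤)
    (G : Subgroup (L ≃ₐ[ℂ] L)) [Finite G] (hst : ∀ i, ∀ g ∈ G, ∀ z ∈ F i, g z ∈ F i)
    (δ : Place ℂ (fixedField G) → ℚ) (hδ : ∀ v, 0 ≤ δ v) (P : Set (Fin n))
    (η : ∀ i, Place ℂ ↥(F i ⊓ fixedField G) → ℚ)
    (hP : ∀ i ∈ P, (¬ ∃ t : F i, ℂ⟮t⟯ = ⊤) ∧ ((¬ IsElliptic (F i) ∧
        OrbPos (inf_le_left : F i ⊓ fixedField G ≤ F i) ∅ (η i)) ∨
      (ContainsFibre (inf_le_right : F i ⊓ fixedField G ≤ fixedField G) δ ∧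
        OrbNonneg (inf_le_left : F i ⊓ fixedField G ≤ F i) ∅ (η i))))
    (hQ : ∀ i ∉ P, (∃ t : F i, ℂ⟮t⟯ = ⊤) ∨ (IsElliptic (F i) ∧
      OrbNonneg (inf_le_left : F i ⊓ fixedField G ≤ F i) ∅ (η i)))
    (hrot : RTCond G F (fun _ => ∅) η) (hδP : BoundedBy (⨆ i : P, F i) n δ) :
    (PairPsef ℂ (fixedField G) n δ ↔ ∀ i, ¬ ∃ t : F i, ℂ⟮t⟯ = ⊤) ∧
    (PairPsef ℂ (fixedField G) n δ → PairKodGe ℂ (fixedField G) n δ P.ncard ∧
      PairNumLe ℂ (fixedField G) n δ P.ncard) := by
  have halg : Algebra.IsAlgebraic ↥(⨆ i, F i) L := by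
    rw [hsup]
    exact ⟨fun z => isAlgebraic_algebraMap (R := ↥(⊤ : IntermediateField ℂ L)) ⟨z, trivial⟩⟩
  obtain ⟨h1, h2⟩ := pair_xg n hn F hF halg G hst δ hδ P η hP hQ hrot
  have h3 : PairPsef ℂ (fixedField G) n δ → ∀ i, ¬ ∃ t : F i, ℂ⟮t⟯ = ⊤ := fun hpe i hi =>
    h1 hsup ⟨i, hi⟩ hδP hpe
  refine ⟨⟨h3, fun h4 => ?_⟩, fun hpe => ⟨(h2 (h3 hpe)).1, (h2 (h3 hpe)).2 hsup hδP⟩⟩
  obtain ⟨m, hm, hsec⟩ := (h2 h4).1
  refine ⟨{1}, fun N => ?_⟩
  rcases Nat.eq_zero_or_pos N with rfl | hN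
  · refine ⟨1, le_rfl, fun _ => 1, ⟨fun A D => by simp, fun v _ D _ => Or.inr
      ⟨1, by simp, one_ne_zero, ?_⟩⟩, fun _ => 0, one_ne_zero⟩
    rw [v.ord_one]
    simp
  · obtain ⟨ω, hlin, hω⟩ := hsec N hN
    have h5 : 0 < N ^ P.ncard := pow_pos hN _
    refine ⟨m, hm, ω ⟨0, h5⟩, ⟨?_, fun v hv D hD => ?_⟩, ?_⟩
    · rw [mul_comm m N]
      exact (hω _).1
    · refine ((hω ⟨0, h5⟩).2 v hv D hD).imp id ?_
      rintro ⟨s, hs, hs0, hle⟩
      refine ⟨1, by simp, one_ne_zero, ?_⟩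
      rw [v.ord_one, mul_comm m N]
      simp only [Nat.cast_zero, zero_mul] at hle
      simpa using hle
    · by_contra hcon
      push Not at hcon
      exact hlin.ne_zero ⟨0, h5⟩ (funext hcon)

end Pool.Agent.Results.MP_9a2ae6_ag.CurveProductPairs
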